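import Pool.Agent.V11246.CDefs
import Pool.Agent.V11246.CohM

/-!
# If the Cohen forcing at the third uncountable cardinal collapses the first one, then it
collapses the second and the third one

The definitions are in `Pool.Agent.V11246.CDefs`, `Pool.Agent.V11246.NDefs` and the files these
name.
-/

namespace Pool.Agent.Results.MP_cbc9f3_lc.AlsoCollapses

open FirstOrder FirstOrder.Language
open Pool.Agent.Helper672.Plain (LSet)
open Pool.Agent.H310Cards (IsOmega)
open Pool.Agent.H635Amen (ZF)
open Pool.Agent.V11246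

universe u

/-- In every model of ZF: let `w₁`, `w₂`, `w₃` be the first three uncountable cardinals and let
`P` be the forcing `Add(w₃, 1)`. If `P` collapses `w₁`, then it collapses `w₂` and `w₃`. -/
theorem _root_.Pool.Agent.Results.MP_cbc9f3_lc.AlsoCollapses.result :
    ∀ (M : Type u) [LSet.Structure M], ZF M → ∀ w₀ w₁ w₂ w₃ P : M,
      IsOmega w₀ → IsSuccCard w₁ w₀ → IsSuccCard w₂ w₁ → IsSuccCard w₃ w₂ → IsCohen P w₃ →
        Collapses P w₁ → Collapses P w₂ ∧ Collapses P w₃ := by
  intro M _ hM w₀ w₁ w₂ w₃ P h₀ h₁ h₂ h₃ hP hc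
  exact Pool.Agent.Helper672.ZFA.V246.collapse (hZ := hM) h₀ h₁ h₂ h₃ hP hc

end Pool.Agent.Results.MP_cbc9f3_lc.AlsoCollapses
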